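import Mathlib
import Pool.Agent.Helper228.Gain.E

set_option autoImplicit false

/-!
Lower bound for the gain of randomization, by instances in which the rate of the deterministic
error is positive.
-/

namespace Pool.Agent.H780R2.GainLower

open MeasureTheory Set
open Pool.Agent.Helper228.Gain
open scoped ENNReal

/-- exponents -/
def ex (K j : ℕ) : ℕ := (4 * K ^ 2) ^ (j + 1)

/-- block sizes -/
def mm (K j : ℕ) : ℕ := 2 ^ (K ^ 2 * ex K j)

/-- numbers of functionals that do not help -/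
def NN (K j : ℕ) : ℕ := 2 ^ (K * ex K j)

/-- block weights -/
noncomputable def sw (K j : ℕ) : ℝ := (1 / 2) ^ (ex K j)

/-- radii of the Euclidean balls -/
noncomputable def rr (K j : ℕ) : ℝ := Real.sqrt ((NN K j : ℝ) / mm K j)

variable {K : ℕ}

lemma ex_succ (K j : ℕ) : ex K (j + 1) = 4 * K ^ 2 * ex K j := by
  unfold ex; rw [pow_succ, mul_comm]

lemma ex_pos (hK : 2 ≤ K) (j : ℕ) : 0 < ex K j := by
  unfold ex; positivity

lemma ex_ge (hK : 2 ≤ K) (j : ℕ) : 2 ≤ ex K j := by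
  unfold ex
  have h1 : 2 ≤ 4 * K ^ 2 := by nlinarith
  calc 2 ≤ 4 * K ^ 2 := h1
    _ = (4 * K ^ 2) ^ 1 := (pow_one _).symm
    _ ≤ _ := Nat.pow_le_pow_right (by omega) (by omega)

lemma ex_strictMono (hK : 2 ≤ K) : StrictMono (ex K) := by
  intro a b hab
  unfold ex
  exact Nat.pow_lt_pow_right (by nlinarith) (by omega)

lemma mm_pos (K j : ℕ) : 0 < mm K j := by unfold mm; positivity
lemma NN_pos (K j : ℕ) : 0 < NN K j := by unfold NN; positivity

lemma sw_pos (K j : ℕ) : 0 < sw K j := by unfold sw; positivity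

lemma sw_le_one (K j : ℕ) : sw K j ≤ 1 := by
  unfold sw; exact pow_le_one₀ (by norm_num) (by norm_num)

lemma sw_anti (hK : 2 ≤ K) {i j : ℕ} (h : i ≤ j) : sw K j ≤ sw K i := by
  unfold sw
  exact pow_le_pow_of_le_one (by norm_num) (by norm_num) ((ex_strictMono hK).monotone h)

lemma two_mm (hK : 2 ≤ K) (j : ℕ) : 2 * mm K j ≤ mm K (j + 1) := by
  unfold mm
  rw [← pow_succ']
  apply Nat.pow_le_pow_right (by norm_num)
  rw [ex_succ]
  have h1 := ex_pos hK j
  have h2 : 4 ≤ K ^ 2 := by nlinarith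
  nlinarith [Nat.mul_le_mul h2 (Nat.mul_le_mul h2 h1)]

lemma sum_mm (hK : 2 ≤ K) (j : ℕ) : ∑ i ∈ Finset.range (j + 1), mm K i ≤ 2 * mm K j := by
  induction j with
  | zero => simp; have := mm_pos K 0; omega
  | succ j ih =>
    rw [Finset.sum_range_succ]
    have := two_mm hK j
    omega

lemma ratio_eq (hK : 2 ≤ K) (j : ℕ) : (NN K j : ℝ) / mm K j = (1 / 2) ^ ((K ^ 2 - K) * ex K j) := by
  unfold NN mm
  push_cast
  have hKK : K ≤ K ^ 2 := by nlinarith
  rw [Nat.sub_mul, one_div, inv_pow, eq_comm, inv_eq_one_div, div_eq_div_iff (by positivity)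
    (by positivity), one_mul, ← pow_add]
  congr 1
  have : K * ex K j ≤ K ^ 2 * ex K j := Nat.mul_le_mul_right _ hKK
  omega

lemma ratio_quarter (hK : 2 ≤ K) (j : ℕ) : (NN K j : ℝ) / mm K j ≤ 1 / 4 := by
  rw [ratio_eq hK]
  have h1 : 2 ≤ (K ^ 2 - K) * ex K j := by
    have h2 : 2 ≤ K ^ 2 - K := by
      have : K * 2 ≤ K ^ 2 := by nlinarith
      omega
    have := ex_ge hK j
    nlinarith
  calc ((1:ℝ) / 2) ^ ((K ^ 2 - K) * ex K j) ≤ (1 / 2) ^ 2 :=
        pow_le_pow_of_le_one (by norm_num) (by norm_num) h1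
    _ = 1 / 4 := by norm_num

lemma rr_sq (K j : ℕ) : rr K j ^ 2 = (NN K j : ℝ) / mm K j := by
  unfold rr
  rw [Real.sq_sqrt (by positivity)]

lemma rr_pos (K j : ℕ) : 0 < rr K j := by
  unfold rr
  have h1 : (0:ℝ) < mm K j := by exact_mod_cast mm_pos K j
  have h2 : (0:ℝ) < NN K j := by exact_mod_cast NN_pos K j
  positivity

lemma rr_le_one (hK : 2 ≤ K) (j : ℕ) : rr K j ≤ 1 := by
  have h1 := rr_sq K j
  have h2 := ratio_quarter hK j
  have h3 := rr_pos K j
  nlinarith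

/-- the instance -/
noncomputable abbrev Fs (K : ℕ) : Set BX := FS (sw K) (rr K) (mm K)

/-- the identity of the space -/
noncomputable abbrev Sid : BX →L[ℝ] BX := ContinuousLinearMap.id ℝ BX

lemma det_ge (hK : 2 ≤ K) (j : ℕ) :
    ENNReal.ofReal (sw K j / 2) ≤ detErr Sid (Fs K) (NN K j) :=
  det_bound (sw_pos K) (mm_pos K j) (by rw [rr_sq]) (ratio_quarter hK j)

/-- deterministic upper bound: measure the first blocks completely -/
lemma det_le (hK : 2 ≤ K) {j n : ℕ} (hn : ∑ i ∈ Finset.range j, mm K i ≤ n) :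
    detErr Sid (Fs K) n ≤ ENNReal.ofReal (2 * sw K j) := by
  classical
  have hcard : (pre (mm K) j).card ≤ n := (card_pre _ _).trans hn
  obtain ⟨e⟩ : Nonempty ((pre (mm K) j) ↪ Fin n) := by
    rw [Function.Embedding.nonempty_iff_card_le]; simpa using hcard
  let L : Fin n → BX →L[ℝ] ℝ := fun i =>
    if hi : ∃ p, e p = i then ev (Classical.choose hi).1 else 0
  have hL : ∀ p, L (e p) = ev p.1 := by
    intro p
    have hi : ∃ p', e p' = e p := ⟨p, rfl⟩
    simp only [L, dif_pos hi]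
    congr 2
    exact e.injective (Classical.choose_spec hi)
  refine iInf_le_of_le L (iInf_le_of_le (fun y => emb (pre (mm K) j)
    (fun q => if h : q ∈ pre (mm K) j then y (e ⟨q, h⟩) else 0)) (iSup₂_le (fun f hf => ?_)))
  rw [← ofReal_norm]
  refine ENNReal.ofReal_le_ofReal ?_
  have h0 := sw_pos K j
  rw [ContinuousLinearMap.id_apply, BoundedContinuousFunction.norm_le (by positivity)]
  rintro ⟨i, l⟩
  rw [Real.norm_eq_abs, BoundedContinuousFunction.sub_apply, emb_apply]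
  by_cases hp : (i, l) ∈ pre (mm K) j
  · rw [if_pos hp, dif_pos hp]
    beta_reduce
    rw [hL, ev_apply, sub_self, abs_zero]
    positivity
  · rw [if_neg hp, sub_zero]
    by_cases hij : i < j
    · have hl : mm K i ≤ l := by
        by_contra hcon
        exact hp (mem_pre.2 ⟨hij, not_le.1 hcon⟩)
      obtain ⟨g, h, z, -, -, e1⟩ := hf i
      rw [e1, (z l hl).1, (z l hl).2]
      simp; positivity
    · refine (FS_bound (fun i => (sw_pos K i).le) (rr_pos K) (rr_le_one hK) hf i l).trans ?_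
      have := sw_anti hK (not_lt.1 hij)
      linarith

/-- trivial bound for the randomized error -/
lemma ran_triv (hK : 2 ≤ K) (n : ℕ) : ranErr Sid (Fs K) n ≤ ENNReal.ofReal 2 := by
  refine ran_upper (Ω := Unit) (κ := Empty) (by norm_num) (by simp) (fun _ _ => 0) (fun _ _ => 0)
    (fun _ => continuous_const) (fun f hf => ?_)
  simp only [Finset.univ_unique, Finset.sum_singleton, Fintype.card_unit, Nat.cast_one, one_mul,
    sub_zero, ContinuousLinearMap.id_apply]
  rw [BoundedContinuousFunction.norm_le (by norm_num)]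
  rintro ⟨i, l⟩
  rw [Real.norm_eq_abs]
  refine (FS_bound (fun i => (sw_pos K i).le) (rr_pos K) (rr_le_one hK) hf i l).trans ?_
  have := sw_le_one K i
  linarith

/-- choice of the active block -/
lemma exists_block (hK : 2 ≤ K) {n : ℕ} (hn : 1 ≤ n) :
    ∃ j, 2 * ∑ i ∈ Finset.range j, mm K i ≤ n ∧ n < 4 * mm K j ∧
      (ex K j : ℝ) ≤ 4 * K ^ 2 * (1 + Real.logb 2 n) := by
  classical
  have hex : ∃ j, n < 2 * ∑ i ∈ Finset.range (j + 1), mm K i := by
    refine ⟨n, ?_⟩
    have h1 : mm K n ≤ ∑ i ∈ Finset.range (n + 1), mm K i :=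
      Finset.single_le_sum (f := fun i => mm K i) (fun _ _ => Nat.zero_le _)
        (Finset.mem_range.2 (Nat.lt_succ_self n))
    have h2 : n < mm K n := by
      unfold mm
      have h3 : n ≤ K ^ 2 * ex K n := by
        have h4 : n ≤ ex K n := (ex_strictMono hK).le_apply
        have h5 : 1 ≤ K ^ 2 := by nlinarith
        nlinarith
      exact lt_of_le_of_lt h3 Nat.lt_two_pow_self
    omega
  have hn0 : (0:ℝ) < n := by exact_mod_cast hn
  have hn1 : (1:ℝ) ≤ n := by exact_mod_cast hn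
  have hlogb : 0 ≤ Real.logb 2 n := Real.logb_nonneg (by norm_num) hn1
  refine ⟨Nat.find hex, ?_, ?_, ?_⟩
  · rcases Nat.eq_zero_or_pos (Nat.find hex) with h0 | h0
    · rw [h0]; simp
    · obtain ⟨j, hj⟩ : ∃ j, Nat.find hex = j + 1 := ⟨Nat.find hex - 1, by omega⟩
      have h1 := Nat.find_min hex (m := j) (by omega)
      rw [not_lt] at h1
      rw [hj]; exact h1
  · have h1 := Nat.find_spec hex
    have h2 := sum_mm hK (Nat.find hex)
    omega
  · rcases Nat.eq_zero_or_pos (Nat.find hex) with h0 | h0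
    · rw [h0]
      unfold ex
      push_cast
      rw [pow_one]
      nlinarith [sq_nonneg (K:ℝ), mul_nonneg (sq_nonneg (K:ℝ)) hlogb]
    · obtain ⟨j, hj⟩ : ∃ j, Nat.find hex = j + 1 := ⟨Nat.find hex - 1, by omega⟩
      have h1 := Nat.find_min hex (m := j) (by omega)
      rw [not_lt] at h1
      have h2 : mm K j ≤ ∑ i ∈ Finset.range (j + 1), mm K i :=
        Finset.single_le_sum (f := fun i => mm K i) (fun _ _ => Nat.zero_le _)
          (Finset.mem_range.2 (Nat.lt_succ_self j))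
      have h3 : mm K j ≤ n := by omega
      have h4 : ((2:ℝ) ^ (K ^ 2 * ex K j)) ≤ n := by
        have : ((mm K j : ℕ) : ℝ) ≤ n := by exact_mod_cast h3
        unfold mm at this
        push_cast at this
        exact this
      have h5 : ((K ^ 2 * ex K j : ℕ) : ℝ) ≤ Real.logb 2 n := by
        rw [Real.le_logb_iff_rpow_le (by norm_num) hn0, Real.rpow_natCast]
        exact h4
      rw [hj, ex_succ]
      push_cast at h5 ⊢
      have h6 : (1:ℝ) ≤ K ^ 2 := by
        have : (2:ℝ) ≤ K := by exact_mod_cast hK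
        nlinarith
      nlinarith

lemma mm_eq (K j : ℕ) : (mm K j : ℝ) = 2 ^ (K ^ 2 * ex K j) := by unfold mm; push_cast; rfl

lemma NN_rpow (hK : 2 ≤ K) (j : ℕ) : (NN K j : ℝ) = (mm K j : ℝ) ^ (1 / (K:ℝ)) := by
  have hK0 : (0:ℝ) < K := by exact_mod_cast (by omega : 0 < K)
  rw [mm_eq, ← Real.rpow_natCast, ← Real.rpow_mul (by norm_num)]
  unfold NN
  push_cast
  rw [← Real.rpow_natCast]
  congr 1
  push_cast
  field_simp

lemma sw_rpow (hK : 2 ≤ K) (j : ℕ) : sw K j = (mm K j : ℝ) ^ (-(1 / (K:ℝ) ^ 2)) := by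
  have hK0 : (0:ℝ) < K := by exact_mod_cast (by omega : 0 < K)
  rw [mm_eq, ← Real.rpow_natCast, ← Real.rpow_mul (by norm_num)]
  unfold sw
  rw [one_div, inv_pow, ← Real.rpow_natCast, ← Real.rpow_neg (by norm_num)]
  congr 1
  push_cast
  field_simp

lemma rr_sq_rpow (hK : 2 ≤ K) (j : ℕ) : rr K j ^ 2 = (mm K j : ℝ) ^ (1 / (K:ℝ) - 1) := by
  have hm : (0:ℝ) < mm K j := by exact_mod_cast mm_pos K j
  rw [rr_sq, NN_rpow hK, Real.rpow_sub_one hm.ne']

/-- logarithms are small powers -/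
lemma log_bound (hK : 2 ≤ K) {n : ℕ} (hn : 1 ≤ n) :
    1 + Real.logb 2 n ≤ (1 + 2 * K) * (n:ℝ) ^ (1 / (K:ℝ)) := by
  have hK0 : (0:ℝ) < K := by exact_mod_cast (by omega : 0 < K)
  have hn1 : (1:ℝ) ≤ n := by exact_mod_cast hn
  have hn0 : (0:ℝ) < n := by linarith
  have h1 : 1 ≤ (n:ℝ) ^ (1 / (K:ℝ)) := Real.one_le_rpow hn1 (by positivity)
  have h2 : Real.log n ≤ (n:ℝ) ^ (1 / (K:ℝ)) / (1 / (K:ℝ)) :=
    Real.log_le_rpow_div hn0.le (by positivity)
  have h3 : Real.logb 2 n ≤ 2 * K * (n:ℝ) ^ (1 / (K:ℝ)) := by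
    rw [Real.logb, div_le_iff₀ (Real.log_pos (by norm_num))]
    have h4 := Real.log_two_gt_d9
    have h5 : (n:ℝ) ^ (1 / (K:ℝ)) / (1 / (K:ℝ)) = K * (n:ℝ) ^ (1 / (K:ℝ)) := by
      field_simp
    rw [h5] at h2
    have h6 : 0 ≤ K * (n:ℝ) ^ (1 / (K:ℝ)) := by positivity
    nlinarith
  linarith

/-- the randomized error has the rate `1 - 1 / K` -/
lemma ran_le (hK : 2 ≤ K) : ∃ C : ℝ, 0 ≤ C ∧ ∀ n : ℕ, 1 ≤ n →
    ranErr Sid (Fs K) n ≤ ENNReal.ofReal (C * (n:ℝ) ^ (-(1 - 1 / (K:ℝ)))) := by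
  have hK0 : (0:ℝ) < K := by exact_mod_cast (by omega : 0 < K)
  have hK2 : (2:ℝ) ≤ K := by exact_mod_cast hK
  set s : ℝ := 1 / (K:ℝ) with hs
  have hs0 : 0 < s := by positivity
  have hs1 : s ≤ 1 / 2 := by rw [hs]; exact one_div_le_one_div_of_le (by norm_num) hK2
  set D : ℝ := 4 * (K:ℝ) ^ 4 * (1 + 2 * K) with hD
  have hD0 : 0 < D := by positivity
  refine ⟨512 * D + Real.sqrt (2048 * D) + 32 + 4 * D, by positivity, fun n hn => ?_⟩
  have hn1 : (1:ℝ) ≤ n := by exact_mod_cast hn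
  have hn0 : (0:ℝ) < n := by linarith
  obtain ⟨j, hP, hnM, hex⟩ := exists_block hK hn
  set M : ℝ := (mm K j : ℝ) with hM
  have hM0 : 0 < M := by rw [hM]; exact_mod_cast mm_pos K j
  have hnM' : (n:ℝ) < 4 * M := by rw [hM]; exact_mod_cast hnM
  set R : ℕ := K ^ 2 * ex K j with hR
  have hR0 : 0 < R := by have := ex_pos hK j; positivity
  have hRr : (0:ℝ) < R := by exact_mod_cast hR0
  set q : ℝ := (n:ℝ) ^ (-(1 - s)) with hq
  have hq0 : 0 < q := by positivity
  have hns : (n:ℝ) ^ s / n = q := by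
    rw [hq, neg_sub, Real.rpow_sub_one hn0.ne']
  have hinv : 1 / (n:ℝ) ≤ q := by
    rw [← hns]
    gcongr
    exact Real.one_le_rpow hn1 hs0.le
  have hRD : (R:ℝ) / n ≤ D * q := by
    have h1 : (R:ℝ) ≤ D * (n:ℝ) ^ s := by
      have h2 := log_bound hK hn
      rw [← hs] at h2
      calc (R:ℝ) = K ^ 2 * ex K j := by rw [hR]; push_cast; ring
        _ ≤ K ^ 2 * (4 * K ^ 2 * (1 + Real.logb 2 n)) := by gcongr
        _ ≤ K ^ 2 * (4 * K ^ 2 * ((1 + 2 * K) * (n:ℝ) ^ s)) := by gcongr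
        _ = _ := by rw [hD]; ring
    calc (R:ℝ) / n ≤ D * (n:ℝ) ^ s / n := by gcongr
      _ = D * q := by rw [mul_div_assoc, hns]
  rcases Nat.eq_zero_or_pos (n / (2 * R)) with hk | hk
  · -- few functionals
    refine (ran_triv hK n).trans (ENNReal.ofReal_le_ofReal ?_)
    have h1 : n < 2 * R := by
      rcases Nat.div_eq_zero_iff.1 hk with h2 | h2
      · omega
      · exact h2
    have h2 : (n:ℝ) < 2 * R := by exact_mod_cast h1
    have h3 : (2:ℝ) ≤ 4 * (R / n) := by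
      rw [← mul_div_assoc, le_div_iff₀ hn0]; linarith
    have h4 : 0 ≤ Real.sqrt (2048 * D) := Real.sqrt_nonneg _
    nlinarith [mul_nonneg hD0.le hq0.le, mul_nonneg h4 hq0.le]
  · set k : ℕ := n / (2 * R) with hkdef
    have hkr : (0:ℝ) < k := by exact_mod_cast hk
    have hcost : ∑ i ∈ Finset.range j, mm K i + R * k ≤ n := by
      have h1 : k * (2 * R) ≤ n := Nat.div_mul_le_self _ _
      have h2 : 2 * (R * k) ≤ n := by
        calc 2 * (R * k) = k * (2 * R) := by ring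
          _ ≤ n := h1
      omega
    have h1k : 1 / (k:ℝ) ≤ 4 * (R / n) := by
      have h1 : n < 2 * R * (k + 1) := Nat.lt_mul_div_succ n (by positivity)
      have h2 : n ≤ 4 * R * k := by
        have h0 : 2 * R * (k + 1) ≤ 2 * R * (k + k) := Nat.mul_le_mul_left _ (by omega)
        calc n ≤ 2 * R * (k + k) := h1.le.trans h0
          _ = 4 * R * k := by ring
      have h3 : (n:ℝ) ≤ 4 * R * k := by exact_mod_cast h2
      rw [← mul_div_assoc, div_le_div_iff₀ hkr hn0]
      linarith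
    have h1k' : 1 / (k:ℝ) ≤ 4 * (D * q) := h1k.trans (by gcongr)
    refine (ran_bound (sw_pos K) (rr_pos K) (rr_le_one hK) hR0 hk hcost
      (τ := 2 * sw K (j + 1)) (by have := sw_pos K (j + 1); positivity)
      (fun i hi => by have := sw_anti hK (Nat.succ_le_of_lt hi); simpa using this)).trans
      (ENNReal.ofReal_le_ofReal ?_)
    have hσ1 := sw_le_one K j
    have hσ0 := sw_pos K j
    -- the four terms
    have t1 : 128 / (k:ℝ) ≤ 512 * D * q := by
      calc 128 / (k:ℝ) = 128 * (1 / k) := by ring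
        _ ≤ 128 * (4 * (D * q)) := by gcongr
        _ = _ := by ring
    have t2 : Real.sqrt (128 / k) * rr K j ≤ Real.sqrt (2048 * D) * q := by
      refine le_of_sq_le_sq ?_ (by positivity)
      rw [mul_pow, mul_pow, Real.sq_sqrt (by positivity), Real.sq_sqrt (by positivity),
        rr_sq_rpow hK, ← hs, ← hM]
      have h1 : M ^ (s - 1) ≤ 4 * q := by
        calc M ^ (s - 1) ≤ ((n:ℝ) / 4) ^ (s - 1) :=
              Real.rpow_le_rpow_of_nonpos (by positivity) (by linarith) (by linarith)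
          _ = (n:ℝ) ^ (s - 1) * 4 ^ (1 - s) := by
              rw [Real.div_rpow hn0.le (by norm_num), div_eq_mul_inv, ← Real.rpow_neg (by norm_num),
                neg_sub]
          _ ≤ (n:ℝ) ^ (s - 1) * 4 := by
              gcongr
              calc (4:ℝ) ^ (1 - s) ≤ 4 ^ (1:ℝ) :=
                    Real.rpow_le_rpow_of_exponent_le (by norm_num) (by linarith)
                _ = 4 := Real.rpow_one _
          _ = 4 * q := by rw [hq, neg_sub]; ring
      calc 128 / (k:ℝ) * M ^ (s - 1) ≤ 512 * D * q * (4 * q) := by gcongr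
        _ = _ := by ring
    have t3 : 4 * (M / 4 ^ R) ≤ 16 * q := by
      have h1 : (4:ℝ) ^ R = M * M := by
        rw [hM, mm_eq, ← hR, ← mul_pow]; norm_num
      rw [h1]
      calc 4 * (M / (M * M)) = 4 * (1 / M) := by field_simp
        _ ≤ 4 * (4 * (1 / n)) := by
            gcongr
            rw [← mul_div_assoc, div_le_div_iff₀ hM0 hn0]; linarith
        _ ≤ 4 * (4 * q) := by gcongr
        _ = _ := by ring
    have t4 : 2 * sw K (j + 1) ≤ 16 * q := by
      have h1 : sw K (j + 1) ≤ 1 / M := by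
        unfold sw
        rw [hM, mm_eq, one_div_pow]
        refine one_div_le_one_div_of_le (by positivity) (pow_le_pow_right₀ (by norm_num) ?_)
        rw [ex_succ]
        have := ex_pos hK j
        nlinarith [Nat.mul_le_mul (le_refl (K^2)) (Nat.le_of_lt_succ (Nat.lt_succ_self (ex K j)))]
      calc 2 * sw K (j + 1) ≤ 2 * (1 / M) := by gcongr
        _ ≤ 2 * (4 * (1 / n)) := by
            gcongr
            rw [← mul_div_assoc, div_le_div_iff₀ hM0 hn0]; linarith
        _ ≤ 2 * (4 * q) := by gcongr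
        _ ≤ _ := by nlinarith
    have h5 : sw K j * (128 / (k:ℝ) + Real.sqrt (128 / k) * rr K j + 4 * (M / 4 ^ R))
        ≤ 1 * (512 * D * q + Real.sqrt (2048 * D) * q + 16 * q) := by
      have := rr_pos K j
      gcongr
    have h6 : 0 ≤ D * q := by positivity
    linarith

/-- the deterministic error has a positive rate -/
lemma det_rate_pos (hK : 2 ≤ K) : 0 < rate (detErr Sid (Fs K)) := by
  have hK0 : (0:ℝ) < K := by exact_mod_cast (by omega : 0 < K)
  have h0 : (0:ℝ) < 1 / (K:ℝ) ^ 2 := by positivity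
  have h1 : ENNReal.ofReal (1 / (K:ℝ) ^ 2) ≤ rate (detErr Sid (Fs K)) := by
    refine le_rate h0 ⟨8, by norm_num, fun n hn => ?_⟩
    have hn1 : (1:ℝ) ≤ n := by exact_mod_cast hn
    have hn0 : (0:ℝ) < n := by linarith
    obtain ⟨j, hP, hnM, -⟩ := exists_block hK hn
    refine (det_le hK (j := j) (by omega)).trans (ENNReal.ofReal_le_ofReal ?_)
    have hnM' : (n:ℝ) < 4 * (mm K j : ℝ) := by exact_mod_cast hnM
    rw [sw_rpow hK]
    set t : ℝ := 1 / (K:ℝ) ^ 2 with ht
    have ht1 : t ≤ 1 := by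
      rw [ht, div_le_one (by positivity)]
      have : (2:ℝ) ≤ K := by exact_mod_cast hK
      nlinarith
    calc 2 * (mm K j : ℝ) ^ (-t) ≤ 2 * ((n:ℝ) / 4) ^ (-t) := by
          gcongr ?_ * ?_
          exact Real.rpow_le_rpow_of_nonpos (by positivity) (by linarith) (by linarith)
      _ = 2 * ((n:ℝ) ^ (-t) * 4 ^ t) := by
          rw [Real.div_rpow hn0.le (by norm_num), div_eq_mul_inv, ← Real.rpow_neg (by norm_num),
            neg_neg]
      _ ≤ 2 * ((n:ℝ) ^ (-t) * 4) := by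
          gcongr
          calc (4:ℝ) ^ t ≤ 4 ^ (1:ℝ) := Real.rpow_le_rpow_of_exponent_le (by norm_num) ht1
            _ = 4 := Real.rpow_one _
      _ = 8 * (n:ℝ) ^ (-t) := by ring
  exact lt_of_lt_of_le (by rw [ENNReal.ofReal_pos]; exact h0) h1

/-- the deterministic error has at most the rate `1 / K` -/
lemma det_rate_le (hK : 2 ≤ K) : rate (detErr Sid (Fs K)) ≤ ENNReal.ofReal (1 / (K:ℝ)) := by
  have hK0 : (0:ℝ) < K := by exact_mod_cast (by omega : 0 < K)
  refine rate_le (fun α hα _ C hC => ?_)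
  have hα' : 0 < α * K - 1 := by
    rw [div_lt_iff₀ hK0] at hα; linarith
  -- choose the block
  obtain ⟨b, hb⟩ : ∃ b : ℕ, 2 * C < (2:ℝ) ^ ((α * K - 1) * b) := by
    have h1 : Filter.Tendsto (fun b : ℕ => (2:ℝ) ^ ((α * K - 1) * b)) Filter.atTop Filter.atTop := by
      have h2 : (1:ℝ) < 2 ^ (α * K - 1) := Real.one_lt_rpow (by norm_num) hα'
      refine (tendsto_pow_atTop_atTop_of_one_lt h2).congr (fun b => ?_)
      rw [← Real.rpow_natCast, ← Real.rpow_mul (by norm_num)]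
    exact ((h1.eventually_gt_atTop (2 * C)).exists)
  have hjb : b ≤ ex K b := (ex_strictMono hK).le_apply
  refine ⟨NN K b, NN_pos K b, lt_of_lt_of_le ?_ (det_ge hK b)⟩
  rw [ENNReal.ofReal_lt_ofReal_iff (by have := sw_pos K b; positivity)]
  set E : ℝ := (ex K b : ℝ) with hE
  have hbE : (b:ℝ) ≤ E := by rw [hE]; exact_mod_cast hjb
  have h1 : ((NN K b : ℕ) : ℝ) ^ (-α) = (2:ℝ) ^ (-(α * K) * E) := by
    unfold NN
    push_cast
    rw [← Real.rpow_natCast, ← Real.rpow_mul (by norm_num)]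
    congr 1
    push_cast
    ring
  have h2 : sw K b = (2:ℝ) ^ (-E) := by
    unfold sw
    rw [one_div, inv_pow, ← Real.rpow_natCast, ← Real.rpow_neg (by norm_num)]
  rw [h1, h2]
  have h3 : 2 * C < (2:ℝ) ^ ((α * K - 1) * E) := by
    refine hb.trans_le (Real.rpow_le_rpow_of_exponent_le (by norm_num) ?_)
    gcongr
  have h4 : (2:ℝ) ^ (-E) = (2:ℝ) ^ ((α * K - 1) * E) * (2:ℝ) ^ (-(α * K) * E) := by
    rw [← Real.rpow_add (by norm_num)]
    congr 1
    ring
  rw [h4]
  have h5 : (0:ℝ) < (2:ℝ) ^ (-(α * K) * E) := by positivity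
  nlinarith

/-- the instance has a gain of at least `1 - 2 / K` -/
theorem gain_instance (hK : 2 ≤ K) :
    ENNReal.ofReal (1 - 2 / (K:ℝ)) ≤ rate (ranErr Sid (Fs K)) - rate (detErr Sid (Fs K)) := by
  have hK0 : (0:ℝ) < K := by exact_mod_cast (by omega : 0 < K)
  have hK2 : (2:ℝ) ≤ K := by exact_mod_cast hK
  have hs1 : 1 / (K:ℝ) ≤ 1 / 2 := one_div_le_one_div_of_le (by norm_num) hK2
  have h1 : ENNReal.ofReal (1 - 1 / (K:ℝ)) ≤ rate (ranErr Sid (Fs K)) := by
    obtain ⟨C, hC, h⟩ := ran_le hK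
    exact le_rate (by linarith) ⟨C, hC, h⟩
  calc ENNReal.ofReal (1 - 2 / (K:ℝ))
      = ENNReal.ofReal (1 - 1 / (K:ℝ)) - ENNReal.ofReal (1 / (K:ℝ)) := by
        rw [← ENNReal.ofReal_sub _ (by positivity)]
        congr 1
        ring
    _ ≤ _ := tsub_le_tsub h1 (det_rate_le hK)

end Pool.Agent.H780R2.GainLower
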