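import Mathlib
import Pool.Agent.Helper579.Rates
import Pool.Agent.Helper228.Gain.Defs

set_option autoImplicit false

/-!
Upper bound `G ≤ 1` for the non-adaptive randomized setting in which `(ω, f) ↦ A^ω f` is measurable
for the norm topologies.
-/

namespace Pool.Agent.H780R2.GainUpper

open MeasureTheory Set Metric Module
open Pool.Agent.Helper579.RanLower Pool.Agent.Helper579.Greedy Pool.Agent.Helper579
open Pool.Agent.Helper228
open scoped ENNReal RealInnerProductSpace Pointwise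

variable {X Y : Type} [NormedAddCommGroup X] [NormedSpace ℝ X]
  [NormedAddCommGroup Y] [NormedSpace ℝ Y]

/-- a non-adaptive algorithm is an adaptive algorithm -/
lemma isAlg_nonadaptive (F : Set X) : ∀ (n : ℕ) (L : Fin n → X →L[ℝ] ℝ) (φ : (Fin n → ℝ) → Y),
    IBC.IsAlg (IBC.info ℝ F) n (fun f : F => φ (fun i => L i f)) := by
  intro n
  induction n with
  | zero =>
    intro L φ
    exact ⟨φ (fun i => i.elim0), fun f => congrArg φ (funext fun i => i.elim0)⟩
  | succ n ih =>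
    intro L φ
    refine ⟨fun f => L 0 f, ⟨L 0, fun _ => rfl⟩,
      fun v f => φ (Fin.cons v (fun i : Fin n => L i.succ f)), fun v => ?_, fun f => ?_⟩
    · exact ih (fun i => L i.succ) (fun w => φ (Fin.cons v w))
    · beta_reduce
      congr 1
      funext i
      refine Fin.cases ?_ (fun i => ?_) i
      · simp
      · simp

/-- on a bounded set, the norm is controlled by the gauge of `F - F` -/
lemma norm_le_gauge {F : Set X} {D : ℝ} (hD : 0 < D) (hF : ∀ x ∈ F, ∀ y ∈ F, ‖x - y‖ ≤ D)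
    {x y : X} (hx : x ∈ F) (hy : y ∈ F) : ‖x - y‖ ≤ D * gauge (F - F) (x - y) := by
  have h1 : ‖x - y‖ / D ≤ gauge (F - F) (x - y) := by
    unfold gauge
    apply le_csInf
    · exact ⟨1, one_pos, by rw [one_smul]; exact ⟨x, hx, y, hy, rfl⟩⟩
    · rintro r ⟨hr, z, ⟨a, ha, b, hb, rfl⟩, hz⟩
      simp only at hz
      rw [← hz, norm_smul, Real.norm_eq_abs, abs_of_pos hr, div_le_iff₀ hD]
      gcongr
      exact hF a ha b hb
  rw [div_le_iff₀ hD] at h1
  linarith

/-- for a bounded set the norm Borel sets are Borel sets for the gauge of `F - F` -/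
lemma borel_le_borelF {F : Set X} {D : ℝ} (hD : 0 < D)
    (hF : ∀ x ∈ F, ∀ y ∈ F, ‖x - y‖ ≤ D) : borel F ≤ IBC.borelF F := by
  apply MeasurableSpace.generateFrom_mono
  intro U hU x hx
  have hU' : IsOpen U := hU
  rw [Metric.isOpen_iff] at hU'
  obtain ⟨ε, hε, hball⟩ := hU' x hx
  refine ⟨ε / D, by positivity, fun g hg => hball ?_⟩
  rw [Metric.mem_ball, Subtype.dist_eq, dist_eq_norm]
  refine lt_of_le_of_lt (norm_le_gauge hD hF g.2 x.2) ?_
  rw [lt_div_iff₀ hD] at hg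
  linarith

/-- measurability of the error on a compact subset -/
lemma meas_err (S : X →L[ℝ] Y) {F F₀ : Set X} (hsub : F₀ ⊆ F) (hc : IsCompact F₀)
    {Ω : Type} (mΩ : MeasurableSpace Ω) (a : Ω × F → Y)
    (ha : @Measurable (Ω × F) Y (@Prod.instMeasurableSpace Ω F mΩ (borel F)) (borel Y) a) :
    @Measurable (F₀ × Ω) ℝ (@Prod.instMeasurableSpace F₀ Ω (borel F₀) mΩ) _
      (fun p => ‖S p.1 - a (p.2, ⟨p.1, hsub p.1.2⟩)‖) := by
  let _ : MeasurableSpace F := borel F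
  have : BorelSpace F := ⟨rfl⟩
  let _ : MeasurableSpace F₀ := borel F₀
  have : BorelSpace F₀ := ⟨rfl⟩
  let _ : MeasurableSpace Y := borel Y
  have : BorelSpace Y := ⟨rfl⟩
  have : CompactSpace F₀ := isCompact_iff_compactSpace.mp hc
  have h1 : Measurable (Function.uncurry (fun (x : F₀) (y : Y) => ‖S x - y‖)) := by
    apply measurable_uncurry_of_continuous_of_measurable
    · intro y
      exact ((S.continuous.comp continuous_subtype_val).sub continuous_const).norm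
    · intro x
      exact (continuous_const.sub continuous_id).norm.measurable
  have h2 : Measurable (fun p : F₀ × Ω => (p.2, (⟨p.1, hsub p.1.2⟩ : F))) := by
    apply Measurable.prodMk measurable_snd
    have : Continuous (fun x : F₀ => (⟨x, hsub x.2⟩ : F)) :=
      Continuous.subtype_mk continuous_subtype_val _
    exact this.measurable.comp measurable_fst
  exact h1.comp (measurable_fst.prodMk (ha.comp h2))

/-- restriction of a randomized non-adaptive algorithm to a compact convex subset -/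
lemma ranErr_restrict (S : X →L[ℝ] Y) {F F₀ : Set X} (hsub : F₀ ⊆ F) (hc : IsCompact F₀)
    (n : ℕ) : IBC.ranErr ℝ S F₀ n ≤ Gain.ranErr S F n := by
  unfold Gain.ranErr
  refine le_iInf (fun A => ?_)
  refine (sInf_le (a := ⨆ f : F₀, @lintegral A.Ω A.mΩ A.P
    (fun ω => ENNReal.ofReal ‖S f - A.φ ω (fun i => A.L ω i f)‖)) ?_).trans ?_
  · refine ⟨A.Ω, A.mΩ, A.P, A.prob, fun ω f => A.φ ω (fun i => A.L ω i f),
      fun ω => isAlg_nonadaptive F₀ n (A.L ω) (A.φ ω), ?_, rfl⟩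
    have h1 := meas_err S hsub hc A.mΩ _ A.meas
    obtain ⟨D, hD⟩ := hc.isBounded.exists_norm_le
    have hb : borel F₀ ≤ IBC.borelF F₀ := by
      apply borel_le_borelF (D := |D| + |D| + 1) (by positivity)
      intro x hx y hy
      refine (norm_sub_le _ _).trans ?_
      have h2 := hD x hx
      have h3 := hD y hy
      have h4 := le_abs_self D
      linarith
    refine Measurable.mono h1 ?_ le_rfl
    exact sup_le_sup (MeasurableSpace.comap_mono hb) le_rfl
  · apply iSup_le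
    intro f
    refine le_trans (le_of_eq ?_) (le_iSup₂ (f := fun (f : X) (_ : f ∈ F) =>
      @lintegral A.Ω A.mΩ A.P (fun ω => ‖S f - A.φ ω (fun i => A.L ω i f)‖ₑ)) (f : X) (hsub f.2))
    congr 1
    funext ω
    exact ofReal_norm _

lemma detErr_eq (S : X →L[ℝ] Y) (F : Set X) : Gain.detErr S F = IBC.detNonErr ℝ S F := by
  funext n
  unfold Gain.detErr IBC.detNonErr
  congr 1
  funext L
  congr 1
  funext φ
  rw [iSup_subtype]
  congr 1
  funext f
  congr 1
  funext hf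
  exact (ofReal_norm _).symm

theorem ran_lowerG {W : Type} [NormedAddCommGroup W] [NormedSpace ℝ W] (S : X →L[ℝ] Y) {F : Set X} (hF : Convex ℝ F)
    {N : ℕ} (hN : 0 < N) {f g : Fin N → X} (hf : ∀ j, f j ∈ F) (hg : ∀ j, g j ∈ F)
    (Ψ : Y →ₗ[ℝ] W) {κ : ℝ} (hκ : 0 < κ) (hΨ : ∀ y, ‖Ψ y‖ ≤ κ * ‖y‖)
    (V : Submodule ℝ (EuclideanSpace ℝ (Fin N))) {σ : ℝ} (hσ0 : 0 ≤ σ)
    (hσ : ∀ v ∈ V, σ * ‖v‖ ≤ ‖∑ j, v j • Ψ (S (f j - g j))‖)
    {k : ℕ} (hk : k < finrank ℝ V) {ρ : ℝ} (hρ : ρ = Real.sqrt (2 * Real.log (20 * N))) :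
    ENNReal.ofReal (Real.sqrt ((finrank ℝ V - k : ℕ) : ℝ) * σ / (80 * N * ρ * κ))
      ≤ Gain.ranErr S F k := by
  set F₀ : Set X := convexHull ℝ (range f ∪ range g) with hF₀
  have hfin : (range f ∪ range g).Finite := (finite_range f).union (finite_range g)
  have hc : IsCompact F₀ := hfin.isCompact_convexHull (𝕜 := ℝ)
  have hsub : F₀ ⊆ F := by
    apply convexHull_min _ hF
    rintro x (⟨j, rfl⟩ | ⟨j, rfl⟩)
    · exact hf j
    · exact hg j
  have hf₀ : ∀ j, f j ∈ F₀ := fun j => subset_convexHull ℝ _ (Or.inl ⟨j, rfl⟩)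
  have hg₀ : ∀ j, g j ∈ F₀ := fun j => subset_convexHull ℝ _ (Or.inr ⟨j, rfl⟩)
  have key := ran_lower' (𝕜 := ℝ) enc_real S (convex_convexHull ℝ _) hN hf₀ hg₀ Ψ hκ hΨ V hσ0 hσ
    (k := k) (by rw [mul_one]; exact hk) hρ
  rw [mul_one] at key
  exact key.trans (ranErr_restrict S hsub hc k)

/-- Lower bound for randomized algorithms from a lower bound for deterministic ones. -/
theorem banach_ineqG (S : X →L[ℝ] Y) {F : Set X} (hF : Convex ℝ F)
    {n : ℕ} {c : ℝ} (hc : 0 < c) (h : ENNReal.ofReal c < IBC.detNonErr ℝ S F n)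
    {p : ℕ} (hp : 2 ≤ p) {a : ℕ} (ha : a * p ≤ n + 1) {k : ℕ} (hk : k < a + 1)
    {ρ : ℝ} (hρ : ρ = Real.sqrt (2 * Real.log (20 * ((n + 1 : ℕ) : ℝ)))) :
    ENNReal.ofReal (Real.sqrt ((a + 1 - k : ℕ) : ℝ) *
      (c * (((n + 1 : ℕ) : ℝ) ^ (1 / ((p : ℝ) - 1)))⁻¹) /
        (80 * ((n + 1 : ℕ) : ℝ) * ρ * Real.sqrt ((n + 1 : ℕ) : ℝ))) ≤ Gain.ranErr S F k := by
  classical
  have hex : ∀ x : Y, ∃ g : Y →L[ℝ] ℝ, ‖g‖ ≤ 1 ∧ g x = ‖x‖ := fun x => exists_dual_vector'' ℝ x
  choose nf hnf1 hnf2 using hex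
  obtain ⟨f, g, h1, h2⟩ := greedy S hF hc.le h nf (n + 1) le_rfl
  set N := n + 1 with hN
  have hNr : (1 : ℝ) ≤ N := by rw [hN]; push_cast; linarith [(Nat.cast_nonneg n : (0 : ℝ) ≤ n)]
  let y : Fin N → (Y →L[ℝ] ℝ) := fun i => nf (S (f i) - S (g i))
  let f' : Fin N → X := fun i => f i
  let g' : Fin N → X := fun i => g i
  have hκ : 0 < Real.sqrt N := by positivity
  let T : EuclideanSpace ℝ (Fin N) →ₗ[ℝ] EuclideanSpace ℝ (Fin N) := ∑ j : Fin N,
    ((EuclideanSpace.proj (𝕜 := ℝ) j).toLinearMap).smulRight (coord y (S (f' j - g' j)))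
  have hTv : ∀ v, T v = ∑ j, v j • coord y (S (f' j - g' j)) := by
    intro v; simp [T]
  let M : Matrix (Fin N) (Fin N) ℝ := fun i j => y i (S (f' j - g' j))
  have hM : ∀ i j, M i j = y i (S (f' j - g' j)) := fun i j => rfl
  have hdetT : LinearMap.det T = M.det := by
    apply det_eq
    intro j i
    rw [hTv]
    rw [Finset.sum_eq_single j]
    · simp [coord_apply, hM]
    · intro j' _ hj'
      simp [hj']
    · intro hj; exact absurd (Finset.mem_univ j) hj
  have hdiag : ∀ i, M i i = c := by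
    intro i
    rw [hM]
    show nf (S (f i) - S (g i)) (S (f i - g i)) = c
    rw [map_sub, hnf2, (h1 i i.2).2.2]
  have hlow : M.BlockTriangular OrderDual.toDual := by
    intro i j hij
    have hij' : i < j := hij
    rw [hM]
    show nf (S (f i) - S (g i)) (S (f j - g j)) = 0
    rw [map_sub S, h2 i j hij' j.2]
  have hdet : M.det = c ^ N := by
    rw [Matrix.det_of_isLowerTriangular M hlow]
    simp [hdiag]
  have hle : ∀ i j, |M i j| ≤ c := by
    intro i j
    rw [hM, ← Real.norm_eq_abs]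
    refine ((y i).le_opNorm _).trans ?_
    show ‖nf (S (f i) - S (g i))‖ * ‖S (f j - g j)‖ ≤ c
    rw [map_sub, (h1 j j.2).2.2]
    calc ‖nf (S (f i) - S (g i))‖ * c ≤ 1 * c := by gcongr; exact hnf1 _
      _ = c := one_mul _
  have hTnorm : ∀ v, ‖T v‖ ≤ (N * c) * ‖v‖ := by
    intro v
    have h3 : ∀ i, |T v i| ≤ c * ∑ j, |v j| := by
      intro i
      have h4 : T v i = ∑ j, v j * M i j := by
        rw [hTv]
        simp [coord_apply, hM]
      rw [h4, Finset.mul_sum]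
      refine (Finset.abs_sum_le_sum_abs _ _).trans (Finset.sum_le_sum fun j _ => ?_)
      rw [abs_mul, mul_comm]
      exact mul_le_mul_of_nonneg_right (hle i j) (abs_nonneg _)
    have h5 : (∑ j, |v j|) ^ 2 ≤ N * ‖v‖ ^ 2 := by
      have h6 := sq_sum_le_card_mul_sum_sq (s := (Finset.univ : Finset (Fin N)))
        (f := fun j => |v j|)
      rw [Finset.card_univ, Fintype.card_fin] at h6
      refine h6.trans (le_of_eq ?_)
      rw [EuclideanSpace.norm_eq, Real.sq_sqrt (Finset.sum_nonneg fun i _ => by positivity)]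
      simp
    have h7 : ‖T v‖ ^ 2 ≤ ((N * c) * ‖v‖) ^ 2 := by
      rw [EuclideanSpace.norm_eq, Real.sq_sqrt (Finset.sum_nonneg fun i _ => by positivity)]
      calc ∑ i, ‖T v i‖ ^ 2 ≤ ∑ _i : Fin N, c ^ 2 * (N * ‖v‖ ^ 2) := by
            apply Finset.sum_le_sum
            intro i _
            rw [Real.norm_eq_abs]
            calc |T v i| ^ 2 ≤ (c * ∑ j, |v j|) ^ 2 := by
                  apply pow_le_pow_left₀ (abs_nonneg _) (h3 i)
              _ = c ^ 2 * (∑ j, |v j|) ^ 2 := by ring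
              _ ≤ _ := by gcongr
        _ = ((N * c) * ‖v‖) ^ 2 := by
            rw [Finset.sum_const, Finset.card_univ, Fintype.card_fin, nsmul_eq_mul]; ring
    exact le_of_sq_le_sq h7 (by positivity)
  have haN : a ≤ N - 1 := by
    have : a * 2 ≤ a * p := Nat.mul_le_mul_left a hp
    omega
  obtain ⟨V, hV, σ, hσ0, hσ, hσc⟩ := Sing.exists_subspace T (B := N * c) (c := c) (by positivity)
    hTnorm (by rw [hdetT, hdet]; exact le_abs_self _) (m := a + 1) (by omega) (by omega)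
  have hσge : c * ((N : ℝ) ^ (1 / ((p : ℝ) - 1)))⁻¹ ≤ σ := by
    have e1 : N - (a + 1) + 1 = N - a := by omega
    rw [Nat.add_sub_cancel, e1] at hσc
    have hpr : (2 : ℝ) ≤ p := by exact_mod_cast hp
    have hq : 0 < N - a := by omega
    set w : ℝ := (N : ℝ) ^ (1 / ((p : ℝ) - 1)) with hw
    have hw0 : 0 < w := by positivity
    have h3 : (N : ℝ) ^ a ≤ w ^ (N - a) := by
      rw [hw, ← Real.rpow_natCast, ← Real.rpow_natCast, ← Real.rpow_mul (by positivity)]
      apply Real.rpow_le_rpow_of_exponent_le hNr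
      rw [Nat.cast_sub (by omega), one_div_mul_eq_div, le_div_iff₀ (by linarith)]
      have h4 : (a : ℝ) * p ≤ N := by exact_mod_cast ha
      linarith
    have h5 : c ^ (N - a) * c ^ a = c ^ N := by
      rw [← pow_add]; congr 1; omega
    have h6 : c ^ (N - a) ≤ (w * σ) ^ (N - a) := by
      have h7 : c ^ (N - a) * c ^ a ≤ (w * σ) ^ (N - a) * c ^ a := by
        rw [h5]
        calc c ^ N ≤ (N * c) ^ a * σ ^ (N - a) := hσc
          _ = N ^ a * (c ^ a * σ ^ (N - a)) := by rw [mul_pow]; ring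
          _ ≤ w ^ (N - a) * (c ^ a * σ ^ (N - a)) := by gcongr
          _ = (w * σ) ^ (N - a) * c ^ a := by rw [mul_pow]; ring
      exact le_of_mul_le_mul_right h7 (by positivity)
    have h8 : c ≤ w * σ := by
      by_contra hcon
      push Not at hcon
      have := pow_lt_pow_left₀ hcon (by positivity) hq.ne'
      linarith
    rw [← div_eq_mul_inv, div_le_iff₀ hw0]
    linarith
  have hlog : 0 < Real.log (20 * N) := Real.log_pos (by linarith)
  have hρ0 : 0 < ρ := by rw [hρ]; positivity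
  have key := ran_lowerG S hF (N := N) (by omega) (f := f') (g := g')
    (fun j => (h1 j j.2).1) (fun j => (h1 j j.2).2.1) (coord y) hκ
    (coord_norm_le y (fun i => hnf1 _)) V hσ0 (fun v hv => by rw [← hTv]; exact hσ v hv)
    (k := k) (by rw [hV]; exact hk) hρ
  refine le_trans ?_ key
  rw [hV]
  apply ENNReal.ofReal_le_ofReal
  gcongr

lemma banach_boundG (S : X →L[ℝ] Y) {F : Set X}
    (hF : Convex ℝ F) {p : ℕ} (hp : 2 ≤ p) {ε : ℝ} (hε : 0 < ε) :
    ∃ C : ℝ≥0∞, C ≠ ∞ ∧ ∀ n : ℕ, 1 ≤ n → Gain.detErr S F n ≤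
      C * (n : ℝ≥0∞) ^ (1 + 1 / ((p : ℝ) - 1) + ε) * Gain.ranErr S F ((n + 1) / (4 * p)) := by
  rw [detErr_eq]
  have hpr : (2 : ℝ) ≤ p := by exact_mod_cast hp
  have hp1 : 0 < 1 / ((p : ℝ) - 1) := by
    have : 0 < (p : ℝ) - 1 := by linarith
    positivity
  set θ : ℝ := 1 + 1 / ((p : ℝ) - 1) + ε with hθ
  refine ⟨ENNReal.ofReal (80 * Real.sqrt (4 * p / 3) * (20 ^ ε / Real.sqrt ε) * 2 ^ θ),
    ENNReal.ofReal_ne_top, fun n hn => ?_⟩
  set a := (n + 1) / p with ha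
  set k := (n + 1) / (4 * p) with hk
  set N : ℝ := ((n + 1 : ℕ) : ℝ) with hN
  have hN1 : 1 ≤ N := by rw [hN]; push_cast; linarith [(Nat.cast_nonneg n : (0 : ℝ) ≤ n)]
  set ρ := Real.sqrt (2 * Real.log (20 * N)) with hρ
  have hlog : 0 < Real.log (20 * N) := Real.log_pos (by linarith)
  have hρ0 : 0 < ρ := by rw [hρ]; positivity
  have ha1 : a * p ≤ n + 1 := Nat.div_mul_le_self _ _
  have ha2 : N < ((a : ℝ) + 1) * p := by
    have : n + 1 < (a + 1) * p := Nat.lt_mul_of_div_lt (Nat.lt_succ_self _) (by omega)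
    rw [hN]
    exact_mod_cast this
  have hkd' : k * (4 * p) ≤ n + 1 := Nat.div_mul_le_self _ _
  have hkd : ((k : ℕ) : ℝ) * (4 * p) ≤ N := by
    rw [hN]
    exact_mod_cast hkd'
  have hkda : k < a + 1 := by
    by_contra hcon
    push Not at hcon
    have h1 : ((a : ℝ) + 1) ≤ ((k : ℕ) : ℝ) := by exact_mod_cast hcon
    nlinarith
  have hm : N * (3 / (4 * p)) ≤ ((a + 1 - k : ℕ) : ℝ) := by
    rw [Nat.cast_sub hkda.le]
    push_cast
    push_cast at hkd
    have h1 : N / p ≤ (a : ℝ) + 1 := by rw [div_le_iff₀ (by linarith)]; linarith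
    have h2 : (k : ℝ) ≤ N / (4 * p) := by rw [le_div_iff₀ (by linarith)]; linarith
    have h3 : N * (3 / (4 * p)) = N / p - N / (4 * p) := by field_simp; norm_num
    linarith
  set w : ℝ := N ^ (1 / ((p : ℝ) - 1)) with hw
  have hw0 : 0 < w := by positivity
  set γ : ℝ := Real.sqrt ((a + 1 - k : ℕ) : ℝ) * w⁻¹ / (80 * N * ρ * Real.sqrt N) with hγ
  have hsq : 0 < Real.sqrt ((a + 1 - k : ℕ) : ℝ) := by
    apply Real.sqrt_pos.mpr
    refine lt_of_lt_of_le ?_ hm
    positivity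
  have hγ0 : 0 < γ := by positivity
  have h1 : IBC.detNonErr ℝ S F n ≤ ENNReal.ofReal γ⁻¹ * Gain.ranErr S F k := by
    apply le_of_forall_ofReal hγ0
    intro c hc0 hc
    rcases eq_or_lt_of_le hc0 with h0 | hcpos
    · rw [← h0]; simp
    · refine le_trans (le_of_eq ?_) (banach_ineqG S hF hcpos hc hp ha1 hkda hρ)
      congr 1
      rw [hγ]
      ring
  refine h1.trans (mul_le_mul' ?_ le_rfl)
  have hn0 : (0 : ℝ) < n := by exact_mod_cast hn
  have h2 : (n : ℝ≥0∞) ^ θ = ENNReal.ofReal ((n : ℝ) ^ θ) := by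
    rw [← ENNReal.ofReal_rpow_of_pos hn0, ENNReal.ofReal_natCast]
  rw [h2, ← ENNReal.ofReal_mul (by positivity)]
  apply ENNReal.ofReal_le_ofReal
  have h3 : γ⁻¹ = 80 * N * ρ * w * (Real.sqrt N / Real.sqrt ((a + 1 - k : ℕ) : ℝ)) := by
    rw [hγ]; field_simp
  have h4 : Real.sqrt N / Real.sqrt ((a + 1 - k : ℕ) : ℝ) ≤ Real.sqrt (4 * p / 3) := by
    rw [← Real.sqrt_div (by linarith)]
    apply Real.sqrt_le_sqrt
    have h5 : 0 < ((a + 1 - k : ℕ) : ℝ) := by
      refine lt_of_lt_of_le ?_ hm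
      positivity
    rw [div_le_iff₀ h5]
    calc N = (4 * p / 3) * (N * (3 / (4 * p))) := by field_simp
      _ ≤ _ := by gcongr
  have h5 : N ≤ 2 * n := by
    rw [hN]; push_cast
    have : (1 : ℝ) ≤ n := by exact_mod_cast hn
    linarith
  rw [h3]
  calc 80 * N * ρ * w * (Real.sqrt N / Real.sqrt ((a + 1 - k : ℕ) : ℝ))
      ≤ 80 * N * ((20 * N) ^ ε / Real.sqrt ε) * w * Real.sqrt (4 * p / 3) := by
        gcongr
        exact Rates.rho_le hN1 hε
    _ = 80 * Real.sqrt (4 * p / 3) * (20 ^ ε / Real.sqrt ε) * (N * N ^ ε * w) := by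
        rw [Real.mul_rpow (by norm_num) (by linarith)]; ring
    _ = 80 * Real.sqrt (4 * p / 3) * (20 ^ ε / Real.sqrt ε) * N ^ θ := by
        congr 1
        rw [hw, hθ, Real.rpow_add (by linarith), Real.rpow_add (by linarith), Real.rpow_one]
        ring
    _ ≤ 80 * Real.sqrt (4 * p / 3) * (20 ^ ε / Real.sqrt ε) * (2 * n) ^ θ := by
        gcongr
    _ = _ := by
        rw [Real.mul_rpow (by norm_num) hn0.le]; ring

lemma detErr_antitone (S : X →L[ℝ] Y) (F : Set X) : Antitone (Gain.detErr S F) := by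
  rw [detErr_eq]
  exact Rates.detNonErr_antitone S F

/-- finiteness of the deterministic error -/
lemma det_one_ne_top (S : X →L[ℝ] Y) {F : Set X} (hF : Convex ℝ F)
    (h : Gain.ranErr S F 1 ≠ ∞) : Gain.detErr S F 1 ≠ ∞ := by
  rw [detErr_eq]
  have hlog : 0 < Real.log (20 * ((1 + 1 : ℕ) : ℝ)) := Real.log_pos (by norm_num)
  set ρ := Real.sqrt (2 * Real.log (20 * ((1 + 1 : ℕ) : ℝ))) with hρ
  have hρ0 : 0 < ρ := by rw [hρ]; positivity
  refine Rates.ne_top_of_linear (γ := (((1 + 1 : ℕ) : ℝ) ^ (1 / (((2 : ℕ) : ℝ) - 1)))⁻¹ /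
    (80 * ((1 + 1 : ℕ) : ℝ) * ρ * Real.sqrt ((1 + 1 : ℕ) : ℝ))) (by positivity) h ?_
  intro c hc hc'
  refine le_trans (le_of_eq ?_) (banach_ineqG S hF hc hc' (p := 2) le_rfl (a := 1)
    (by norm_num) (k := 1) (by norm_num) hρ)
  congr 1
  have : Real.sqrt ((1 + 1 - 1 : ℕ) : ℝ) = 1 := by norm_num
  rw [this]
  ring

/-- comparison of two ways to say `z n = O(n^{-α})` -/
lemma hasRate_of {z : ℕ → ℝ≥0∞} {α C : ℝ}
    (h : ∀ n : ℕ, 1 ≤ n → z n ≤ ENNReal.ofReal (C * (n : ℝ) ^ (-α))) : Rates.HasRate z α := by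
  rw [Rates.hasRate_iff]
  refine ⟨ENNReal.ofReal C, ENNReal.ofReal_ne_top, fun n hn => ?_⟩
  have hn0 : (0 : ℝ) < n := by exact_mod_cast hn
  have h1 : (n : ℝ≥0∞) ^ α = ENNReal.ofReal ((n : ℝ) ^ α) := by
    rw [← ENNReal.ofReal_rpow_of_pos hn0, ENNReal.ofReal_natCast]
  rw [h1]
  refine (mul_le_mul' le_rfl (h n hn)).trans ?_
  rw [← ENNReal.ofReal_mul (by positivity)]
  apply ENNReal.ofReal_le_ofReal
  rw [Real.rpow_neg hn0.le]
  have : (0 : ℝ) < (n : ℝ) ^ α := by positivity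
  apply le_of_eq
  field_simp

lemma of_hasRate {z : ℕ → ℝ≥0∞} {α : ℝ} (h : Rates.HasRate z α) :
    ∃ C : ℝ, 0 ≤ C ∧ ∀ n : ℕ, 1 ≤ n → z n ≤ ENNReal.ofReal (C * (n : ℝ) ^ (-α)) := by
  obtain ⟨C, hC, h⟩ := Rates.hasRate_iff.mp h
  refine ⟨C.toReal, ENNReal.toReal_nonneg, fun n hn => ?_⟩
  have hn0 : (0 : ℝ) < n := by exact_mod_cast hn
  have h1 : (n : ℝ≥0∞) ^ α = ENNReal.ofReal ((n : ℝ) ^ α) := by
    rw [← ENNReal.ofReal_rpow_of_pos hn0, ENNReal.ofReal_natCast]
  have h2 := h n hn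
  rw [h1] at h2
  have h3 : z n = ENNReal.ofReal ((n : ℝ) ^ (-α)) * (ENNReal.ofReal ((n : ℝ) ^ α) * z n) := by
    rw [← mul_assoc, ← ENNReal.ofReal_mul (by positivity), ← Real.rpow_add hn0]
    simp
  rw [h3]
  refine (mul_le_mul' le_rfl h2).trans ?_
  rw [ENNReal.ofReal_mul ENNReal.toReal_nonneg, ENNReal.ofReal_toReal hC, mul_comm]

/-- the rate of randomized algorithms exceeds the deterministic rate by at most one -/
theorem rate_ran_le (S : X →L[ℝ] Y) {F : Set X} (hF : Convex ℝ F) :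
    Gain.rate (Gain.ranErr S F) ≤ Gain.rate (Gain.detErr S F) + 1 := by
  have key : ∀ α : ℝ, Rates.HasRate (Gain.ranErr S F) α → ∀ ε : ℝ, 0 < ε →
      Rates.HasRate (Gain.detErr S F) (α - 1 - ε) := by
    intro α hα ε hε
    obtain ⟨p₀, hp₀⟩ := exists_nat_gt (2 / ε)
    set p := p₀ + 2 with hp
    have hp2 : 2 ≤ p := by omega
    have hpr : 1 / ((p : ℝ) - 1) ≤ ε / 2 := by
      have h3 : 2 / ε ≤ (p : ℝ) - 1 := by rw [hp]; push_cast; linarith
      have h4 : 0 < 2 / ε := by positivity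
      calc 1 / ((p : ℝ) - 1) ≤ 1 / (2 / ε) := one_div_le_one_div_of_le h4 h3
        _ = ε / 2 := by field_simp
    obtain ⟨C, hC, hb⟩ := banach_boundG S hF hp2 (half_pos hε)
    have hQ : 2 ≤ 4 * p := by omega
    have h5 := Rates.hasRate_transfer (k := fun n => (n + 1) / (4 * p)) (n₀ := 2 * (4 * p))
      (q := 2 * (4 * p)) hC hα (det_one_ne_top S hF hα.one_ne_top) (detErr_antitone S F)
      (fun n hn => Rates.div_props hQ hn) (fun n hn => hb n (by omega))
    exact h5.mono (by linarith)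
  by_cases htop : Gain.rate (Gain.detErr S F) = ⊤
  · rw [htop]; simp
  refine sSup_le ?_
  rintro t ⟨α, hα, rfl, C, hC, hz⟩
  have h1 := hasRate_of hz
  set r := (Gain.rate (Gain.detErr S F)).toReal with hr
  have hr' : Gain.rate (Gain.detErr S F) = ENNReal.ofReal r := (ENNReal.ofReal_toReal htop).symm
  have hr0 : 0 ≤ r := ENNReal.toReal_nonneg
  by_contra hcon
  push Not at hcon
  rw [hr', ← ENNReal.ofReal_one, ← ENNReal.ofReal_add hr0 zero_le_one,
    ENNReal.ofReal_lt_ofReal_iff hα] at hcon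
  have h2 := key α h1 ((α - 1 - r) / 2) (by linarith)
  have h3 : 0 < α - 1 - (α - 1 - r) / 2 := by linarith
  obtain ⟨C', hC', h4⟩ := of_hasRate h2
  have h5 : ENNReal.ofReal (α - 1 - (α - 1 - r) / 2) ≤ Gain.rate (Gain.detErr S F) :=
    le_sSup ⟨_, h3, rfl, C', hC', h4⟩
  rw [hr', ENNReal.ofReal_le_ofReal_iff hr0] at h5
  linarith

theorem gain_le_one : Gain.gain ≤ 1 := by
  refine sSup_le ?_
  rintro t ⟨X, Y, _, _, _, _, _, _, S, F, hF, -, -, rfl⟩
  rw [tsub_le_iff_right, add_comm]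
  exact rate_ran_le S hF

end Pool.Agent.H780R2.GainUpper
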