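import Mathlib

set_option autoImplicit false

/-!
Oblivious subspace injections, the Moore-Penrose pseudoinverse and the sketch-and-solve estimate.
-/

namespace Pool.Agent.H780R2.Sketch

open MeasureTheory Matrix
open scoped ENNReal

/-- The squared Euclidean norm of a vector. -/
def sqNorm {m : ℕ} (v : Fin m → ℝ) : ℝ := ∑ i, v i ^ 2

/-- The Frobenius norm of a matrix. -/
noncomputable def frob {m p : ℕ} (M : Matrix (Fin m) (Fin p) ℝ) : ℝ :=
  Real.sqrt (∑ i, ∑ j, M i j ^ 2)

/-- `N` is the Moore-Penrose pseudoinverse of `M`: the four Penrose conditions. -/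
def IsPinv {m d : ℕ} (M : Matrix (Fin m) (Fin d) ℝ) (N : Matrix (Fin d) (Fin m) ℝ) : Prop :=
  M * N * M = M ∧ N * M * N = N ∧ (M * N)ᵀ = M * N ∧ (N * M)ᵀ = N * M

open Classical in
/-- The Moore-Penrose pseudoinverse `M⁺` (see `isPinv_pinv` and `IsPinv.unique`: it is the unique
matrix satisfying the four Penrose conditions). -/
noncomputable def pinv {m d : ℕ} (M : Matrix (Fin m) (Fin d) ℝ) : Matrix (Fin d) (Fin m) ℝ :=
  if h : ∃ N, IsPinv M N then h.choose else 0

/-- An oblivious subspace injection of dimension `r` with injectivity `α` and failure probability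
`δ`: a random `n × k` matrix `S` (defined on a probability space) with
(isotropy) `E ‖Sᵀ x‖² = ‖x‖²` for every vector `x`, and
(injectivity) for every fixed `r`-dimensional subspace `V`, with probability at least `1 - δ`,
`‖Sᵀ x‖² ≥ α ‖x‖²` for all `x ∈ V`. -/
structure OSI (n k r : ℕ) (α δ : ℝ) where
  /-- the sample space -/
  Ω : Type
  /-- its sigma algebra -/
  mΩ : MeasurableSpace Ω
  /-- the probability measure -/
  P : Measure Ω
  prob : IsProbabilityMeasure P
  /-- the random matrix -/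
  S : Ω → Matrix (Fin n) (Fin k) ℝ
  meas : ∀ i j, Measurable fun ω => S ω i j
  isotropy : ∀ x : Fin n → ℝ,
    ∫⁻ ω, ENNReal.ofReal (sqNorm ((S ω)ᵀ *ᵥ x)) ∂P = ENNReal.ofReal (sqNorm x)
  injectivity : ∀ V : Submodule ℝ (Fin n → ℝ), Module.finrank ℝ V = r →
    ENNReal.ofReal (1 - δ) ≤ P {ω | ∀ x ∈ V, α * sqNorm x ≤ sqNorm ((S ω)ᵀ *ᵥ x)}

/-- The sketch-and-solve estimate `X̃ = (Ωᵀ A)⁺ Ωᵀ B` for the value `S` of the random matrix. -/
noncomputable def sketchSolve {n k d p : ℕ} (S : Matrix (Fin n) (Fin k) ℝ)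
    (A : Matrix (Fin n) (Fin d) ℝ) (B : Matrix (Fin n) (Fin p) ℝ) : Matrix (Fin d) (Fin p) ℝ :=
  pinv (Sᵀ * A) * (Sᵀ * B)

/-- `OPT`: the minimum of `‖A X - B‖_F` over all real `d × p` matrices `X`. -/
noncomputable def opt {n d p : ℕ} (A : Matrix (Fin n) (Fin d) ℝ) (B : Matrix (Fin n) (Fin p) ℝ) :
    ℝ := ⨅ X : Matrix (Fin d) (Fin p) ℝ, frob (A * X - B)

/-- the pseudoinverse is unique -/
theorem IsPinv.unique {m d : ℕ} {M : Matrix (Fin m) (Fin d) ℝ} {N N' : Matrix (Fin d) (Fin m) ℝ}
    (h : IsPinv M N) (h' : IsPinv M N') : N = N' := by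
  obtain ⟨a1, a2, a3, a4⟩ := h
  obtain ⟨b1, b2, b3, b4⟩ := h'
  have e1 : M * N = M * N' := by
    calc M * N = (M * N' * M) * N := by rw [b1]
      _ = (M * N') * (M * N) := by simp only [Matrix.mul_assoc]
      _ = (M * N')ᵀ * (M * N)ᵀ := by rw [b3, a3]
      _ = ((M * N) * (M * N'))ᵀ := by rw [← Matrix.transpose_mul]
      _ = ((M * N * M) * N')ᵀ := by simp only [Matrix.mul_assoc]
      _ = (M * N')ᵀ := by rw [a1]
      _ = M * N' := b3
  have e2 : N * M = N' * M := by
    calc N * M = N * (M * N' * M) := by rw [b1]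
      _ = (N * M) * (N' * M) := by simp only [Matrix.mul_assoc]
      _ = (N * M)ᵀ * (N' * M)ᵀ := by rw [b4, a4]
      _ = ((N' * M) * (N * M))ᵀ := by rw [← Matrix.transpose_mul]
      _ = (N' * (M * N * M))ᵀ := by simp only [Matrix.mul_assoc]
      _ = (N' * M)ᵀ := by rw [a1]
      _ = N' * M := b4
  calc N = N * M * N := a2.symm
    _ = N' * M * N := by rw [e2]
    _ = N' * (M * N) := Matrix.mul_assoc _ _ _
    _ = N' * (M * N') := by rw [e1]
    _ = N' * M * N' := (Matrix.mul_assoc _ _ _).symm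
    _ = N' := b2

theorem pinv_eq {m d : ℕ} {M : Matrix (Fin m) (Fin d) ℝ} {N : Matrix (Fin d) (Fin m) ℝ}
    (h : IsPinv M N) : pinv M = N := by
  unfold pinv
  rw [dif_pos ⟨N, h⟩]
  exact IsPinv.unique (Exists.choose_spec (⟨N, h⟩ : ∃ N, IsPinv M N)) h

/-- the pseudoinverse of a matrix with linearly independent columns -/
theorem isPinv_of_det {m d : ℕ} {M : Matrix (Fin m) (Fin d) ℝ} (h : IsUnit (Mᵀ * M).det) :
    IsPinv M ((Mᵀ * M)⁻¹ * Mᵀ) := by
  have h1 : (Mᵀ * M)⁻¹ * Mᵀ * M = 1 := by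
    rw [Matrix.mul_assoc, Matrix.nonsing_inv_mul _ h]
  refine ⟨?_, ?_, ?_, ?_⟩
  · rw [Matrix.mul_assoc, h1, Matrix.mul_one]
  · rw [h1, Matrix.one_mul]
  · rw [Matrix.transpose_mul, Matrix.transpose_mul, Matrix.transpose_transpose,
      Matrix.transpose_nonsing_inv, Matrix.transpose_mul, Matrix.transpose_transpose,
      Matrix.mul_assoc]
  · rw [h1, Matrix.transpose_one]

/-- every real matrix has a pseudoinverse -/
theorem exists_isPinv {m d : ℕ} (M : Matrix (Fin m) (Fin d) ℝ) : ∃ N, IsPinv M N := by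
  classical
  -- diagonalise `Mᵀ M`
  set H : Matrix (Fin d) (Fin d) ℝ := Mᵀ * M with hH
  have hherm : H.IsHermitian := by
    rw [hH]
    have := Matrix.isHermitian_conjTranspose_mul_self M
    rwa [Matrix.conjTranspose_eq_transpose_of_trivial] at this
  set U : Matrix (Fin d) (Fin d) ℝ := (hherm.eigenvectorUnitary : Matrix (Fin d) (Fin d) ℝ) with hU
  have hUU : Uᵀ * U = 1 := by
    have := (Matrix.mem_unitaryGroup_iff').1 (hherm.eigenvectorUnitary).2
    rwa [Matrix.star_eq_conjTranspose, Matrix.conjTranspose_eq_transpose_of_trivial] at this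
  have hUU' : U * Uᵀ = 1 := by
    have := (Matrix.mem_unitaryGroup_iff).1 (hherm.eigenvectorUnitary).2
    rwa [Matrix.star_eq_conjTranspose, Matrix.conjTranspose_eq_transpose_of_trivial] at this
  set e : Fin d → ℝ := hherm.eigenvalues with he
  have hspec : H = U * diagonal e * Uᵀ := by
    have h1 := hherm.spectral_theorem
    rw [Unitary.conjStarAlgAut_apply, Matrix.star_eq_conjTranspose,
      Matrix.conjTranspose_eq_transpose_of_trivial] at h1
    exact h1
  set W : Matrix (Fin d) (Fin d) ℝ := U * diagonal (fun i => (e i)⁻¹) * Uᵀ with hW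
  have hHW : H * W = U * diagonal (fun i => e i * (e i)⁻¹) * Uᵀ := by
    rw [hspec, hW]
    calc U * diagonal e * Uᵀ * (U * diagonal (fun i => (e i)⁻¹) * Uᵀ)
        = U * diagonal e * (Uᵀ * U) * diagonal (fun i => (e i)⁻¹) * Uᵀ := by
          simp only [Matrix.mul_assoc]
      _ = _ := by rw [hUU, Matrix.mul_one, Matrix.mul_assoc U, Matrix.diagonal_mul_diagonal]
  have hWH : W * H = U * diagonal (fun i => e i * (e i)⁻¹) * Uᵀ := by
    rw [hspec, hW]
    calc U * diagonal (fun i => (e i)⁻¹) * Uᵀ * (U * diagonal e * Uᵀ)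
        = U * diagonal (fun i => (e i)⁻¹) * (Uᵀ * U) * diagonal e * Uᵀ := by
          simp only [Matrix.mul_assoc]
      _ = _ := by
          rw [hUU, Matrix.mul_one, Matrix.mul_assoc U, Matrix.diagonal_mul_diagonal]
          congr 3
          funext i
          rw [mul_comm]
  have hsymQ : (U * diagonal (fun i => e i * (e i)⁻¹) * Uᵀ)ᵀ
      = U * diagonal (fun i => e i * (e i)⁻¹) * Uᵀ := by
    rw [Matrix.transpose_mul, Matrix.transpose_mul, Matrix.transpose_transpose,
      Matrix.diagonal_transpose, Matrix.mul_assoc]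
  have hsymW : Wᵀ = W := by
    rw [hW, Matrix.transpose_mul, Matrix.transpose_mul, Matrix.transpose_transpose,
      Matrix.diagonal_transpose, Matrix.mul_assoc]
  have hHWH : H * W * H = H := by
    rw [hHW]
    nth_rewrite 1 [hspec]
    calc U * diagonal (fun i => e i * (e i)⁻¹) * Uᵀ * (U * diagonal e * Uᵀ)
        = U * diagonal (fun i => e i * (e i)⁻¹) * (Uᵀ * U) * diagonal e * Uᵀ := by
          simp only [Matrix.mul_assoc]
      _ = U * diagonal e * Uᵀ := by
          rw [hUU, Matrix.mul_one, Matrix.mul_assoc U, Matrix.diagonal_mul_diagonal]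
          congr 3
          funext i
          by_cases h0 : e i = 0
          · simp [h0]
          · field_simp
      _ = H := hspec.symm
  have hWHW : W * H * W = W := by
    rw [hWH]
    nth_rewrite 1 [hW]
    calc U * diagonal (fun i => e i * (e i)⁻¹) * Uᵀ * (U * diagonal (fun i => (e i)⁻¹) * Uᵀ)
        = U * diagonal (fun i => e i * (e i)⁻¹) * (Uᵀ * U) * diagonal (fun i => (e i)⁻¹) * Uᵀ := by
          simp only [Matrix.mul_assoc]
      _ = W := by
          rw [hUU, Matrix.mul_one, Matrix.mul_assoc U, Matrix.diagonal_mul_diagonal, hW]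
          congr 3
          funext i
          by_cases h0 : e i = 0
          · simp [h0]
          · field_simp
  -- `M W H = M`
  have hMWH : M * W * H = M := by
    have h1 : (M * W * H - M)ᵀ * (M * W * H - M) = 0 := by
      have hT : (M * W * H - M)ᵀ = H * W * Mᵀ - Mᵀ := by
        have h0 : Hᵀ = H := by rw [hH, Matrix.transpose_mul, Matrix.transpose_transpose]
        rw [Matrix.transpose_sub, Matrix.transpose_mul (M * W) H, Matrix.transpose_mul M W, hsymW,
          h0, Matrix.mul_assoc H W]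
      rw [hT, Matrix.sub_mul, Matrix.mul_sub, Matrix.mul_sub]
      have e1 : H * W * Mᵀ * (M * W * H) = H := by
        calc H * W * Mᵀ * (M * W * H) = H * W * (Mᵀ * M) * W * H := by
              simp only [Matrix.mul_assoc]
          _ = H * W * H * W * H := by rw [← hH]
          _ = H := by rw [hHWH, hHWH]
      have e2 : H * W * Mᵀ * M = H := by
        rw [Matrix.mul_assoc, ← hH, hHWH]
      have e3 : Mᵀ * (M * W * H) = H := by
        rw [Matrix.mul_assoc M, ← Matrix.mul_assoc, ← hH, ← Matrix.mul_assoc, hHWH]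
      rw [e1, e2, e3, ← hH]
      simp
    have h2 : M * W * H - M = 0 := by
      rw [← Matrix.conjTranspose_eq_transpose_of_trivial] at h1
      exact Matrix.conjTranspose_mul_self_eq_zero.1 h1
    exact sub_eq_zero.1 h2
  refine ⟨W * Mᵀ, ?_, ?_, ?_, ?_⟩
  · calc M * (W * Mᵀ) * M = M * W * (Mᵀ * M) := by simp only [Matrix.mul_assoc]
      _ = M := by rw [← hH, hMWH]
  · calc W * Mᵀ * M * (W * Mᵀ) = W * (Mᵀ * M) * W * Mᵀ := by simp only [Matrix.mul_assoc]
      _ = W * Mᵀ := by rw [← hH, hWHW]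
  · rw [Matrix.transpose_mul, Matrix.transpose_mul, Matrix.transpose_transpose, hsymW,
      Matrix.mul_assoc]
  · have h3 : W * Mᵀ * M = U * diagonal (fun i => e i * (e i)⁻¹) * Uᵀ := by
      rw [Matrix.mul_assoc, ← hH, hWH]
    rw [h3, hsymQ]

/-- `pinv M` satisfies the four Penrose conditions -/
theorem isPinv_pinv {m d : ℕ} (M : Matrix (Fin m) (Fin d) ℝ) : IsPinv M (pinv M) := by
  obtain ⟨N, hN⟩ := exists_isPinv M
  rw [pinv_eq hN]
  exact hN

end Pool.Agent.H780R2.Sketch
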